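import Pool.Agent.R33.WordSign

/-!
# MP_f664e7_co: a cyclic shuffle-compatible statistic that is not a cyclic descent statistic

The statistic is the sign of the word for odd lengths (where it does not change under rotation),
and constant for even lengths.
-/

set_option autoImplicit false

namespace Pool.Agent.Results.MP_f664e7_co.SignStatistic

open Equiv Finset Pool.Agent.R33.WordSign

/-- A (linear) permutation: a word of distinct positive integers. -/
def IsWord (l : List ℕ) : Prop := l.Nodup ∧ ∀ x ∈ l, 0 < x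

/-- Two words have the same relative order. -/
def SameOrder (l l' : List ℕ) : Prop :=
  l.length = l'.length ∧ ∀ i j, i < l.length → j < l.length →
    (l.getD i 0 < l.getD j 0 ↔ l'.getD i 0 < l'.getD j 0)

/-- A cyclic permutation statistic: a function of cyclic permutations (words up to rotation)
that takes the same value on words of the same relative order. -/
def IsStatistic (cst : Cycle ℕ → ℕ) : Prop :=
  ∀ l l' : List ℕ, IsWord l → IsWord l' → SameOrder l l' → cst l = cst l'

/-- The cyclic shuffles of the cyclic permutations `[π]` and `[σ]`: the cyclic permutations `[τ]`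
such that `τ` has length `|π| + |σ|` and contains some rotation of `π` and some rotation of `σ` as
subsequences. -/
def Shuffles (π σ : List ℕ) : Set (Cycle ℕ) :=
  {t | ∃ τ : List ℕ, (τ : Cycle ℕ) = t ∧ IsWord τ ∧ τ.length = π.length + σ.length ∧
    (∃ π' : List ℕ, π' ~r π ∧ π'.Sublist τ) ∧ (∃ σ' : List ℕ, σ' ~r σ ∧ σ'.Sublist τ)}

/-- Cyclic shuffle-compatibility: the number of cyclic shuffles of `[π]` and `[σ]` on which the
statistic has the value `v` depends only on the values on `[π]` and `[σ]` and on the lengths. -/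
def ShuffleCompatible (cst : Cycle ℕ → ℕ) : Prop :=
  ∀ π σ π' σ' : List ℕ, IsWord π → IsWord σ → IsWord π' → IsWord σ' →
    List.Disjoint π σ → List.Disjoint π' σ' →
    cst π = cst π' → cst σ = cst σ' → π.length = π'.length → σ.length = σ'.length →
    ∀ v : ℕ, {t ∈ Shuffles π σ | cst t = v}.ncard = {t ∈ Shuffles π' σ' | cst t = v}.ncard

/-- The cyclic descent set of a word (positions are numbered from `0`). -/
def cDesWord (l : List ℕ) : Finset ℕ :=
  (Finset.range l.length).filter fun i => l.getD ((i + 1) % l.length) 0 < l.getD i 0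

/-- The multiset of the cyclic descent sets of all rotations of a word. -/
def cDes (l : List ℕ) : Multiset (Finset ℕ) :=
  (Multiset.range l.length).map fun k => cDesWord (l.rotate k)

/-- A cyclic descent statistic: it is determined by the length and `cDes`. -/
def IsCyclicDescentStatistic (cst : Cycle ℕ → ℕ) : Prop :=
  ∀ l l' : List ℕ, IsWord l → IsWord l' → l.length = l'.length → cDes l = cDes l' →
    cst l = cst l'

open Classical in
/-- The sign statistic. -/
noncomputable def cst (t : Cycle ℕ) : ℕ :=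
  if Odd t.length ∧ ∃ l : List ℕ, (l : Cycle ℕ) = t ∧ 0 < V l then 1 else 0

theorem cst_even {t : Cycle ℕ} (h : ¬ Odd t.length) : cst t = 0 := by
  unfold cst
  rw [if_neg (fun h' => h h'.1)]

theorem cst_le (t : Cycle ℕ) : cst t = 0 ∨ cst t = 1 := by
  unfold cst
  split_ifs
  · exact Or.inr rfl
  · exact Or.inl rfl

theorem cst_coe {l : List ℕ} (hl : l.Nodup) (hodd : Odd l.length) : cst l = 1 ↔ 0 < V l := by
  unfold cst
  constructor
  · intro h
    split_ifs at h with h1
    obtain ⟨-, l', h2, h3⟩ := h1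
    rw [Cycle.coe_eq_coe] at h2
    have h4 := V_isRotated hl hodd h2.symm
    rwa [h4] at h3
  · intro h
    rw [if_pos]
    exact ⟨by rwa [Cycle.length_coe], l, rfl, h⟩

theorem isStatistic : IsStatistic cst := by
  intro l l' hl hl' h
  by_cases hodd : Odd l.length
  · have h1 := cst_coe hl.1 hodd
    have h2 := cst_coe hl'.1 (by rwa [← h.1])
    have h3 := V_sameOrder h.1 h.2
    rcases cst_le l with h4 | h4 <;> rcases cst_le l' with h5 | h5
    · rw [h4, h5]
    · rw [h2, ← h3, ← h1] at h5
      rw [h5, h2.2 (h3.1 (h1.1 h5))]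
    · rw [h1, h3, ← h2] at h4
      rw [h4, h1.2 (h3.2 (h2.1 h4))]
    · rw [h4, h5]
  · rw [cst_even (by rwa [Cycle.length_coe]), cst_even (by rwa [Cycle.length_coe, ← h.1])]

/-- The letters of a shuffle. -/
theorem mem_iff_of_shuffle {π σ τ π' σ' : List ℕ} (hπ : IsWord π) (hσ : IsWord σ)
    (hd : List.Disjoint π σ) (hlen : τ.length = π.length + σ.length)
    (h1 : π' ~r π) (h2 : π'.Sublist τ) (h3 : σ' ~r σ) (h4 : σ'.Sublist τ) :
    (π ++ σ).Perm τ := by
  have hnd : (π ++ σ).Nodup := by
    rw [List.nodup_append']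
    exact ⟨hπ.1, hσ.1, hd⟩
  have hsub : (π ++ σ) ⊆ τ := by
    intro x hx
    rw [List.mem_append] at hx
    rcases hx with hx | hx
    · exact h2.subset (h1.mem_iff.2 hx)
    · exact h4.subset (h3.mem_iff.2 hx)
  have hsp : (π ++ σ).Subperm τ := List.subperm_of_subset hnd hsub
  exact hsp.perm_of_length_le (by rw [hlen, List.length_append])

theorem finite_shuffles {π σ : List ℕ} (hπ : IsWord π) (hσ : IsWord σ)
    (hd : List.Disjoint π σ) : (Shuffles π σ).Finite := by
  have hfin : ((fun τ : List ℕ => (τ : Cycle ℕ)) '' {τ | τ ∈ (π ++ σ).permutations}).Finite :=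
    Set.Finite.image _ (List.finite_toSet _)
  refine hfin.subset ?_
  rintro t ⟨τ, rfl, -, hlen, ⟨π', h1, h2⟩, ⟨σ', h3, h4⟩⟩
  refine ⟨τ, ?_, rfl⟩
  show τ ∈ (π ++ σ).permutations
  rw [List.mem_permutations]
  exact (mem_iff_of_shuffle hπ hσ hd hlen h1 h2 h3 h4).symm

/-- Relabelling shuffles. -/
theorem map_shuffles {π σ : List ℕ} (hπ : IsWord π) (hσ : IsWord σ)
    (hd : List.Disjoint π σ) (e : Perm ℕ) (hπ' : IsWord (π.map e)) (hσ' : IsWord (σ.map e))
    {t : Cycle ℕ} (ht : t ∈ Shuffles π σ) :
    t.map e ∈ Shuffles (π.map e) (σ.map e) := by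
  obtain ⟨τ, rfl, hτ, hlen, ⟨π', h1, h2⟩, ⟨σ', h3, h4⟩⟩ := ht
  have hperm := mem_iff_of_shuffle hπ hσ hd hlen h1 h2 h3 h4
  refine ⟨τ.map e, by rw [Cycle.map_coe], ⟨hτ.1.map e.injective, ?_⟩, ?_, ?_, ?_⟩
  · intro x hx
    rw [List.mem_map] at hx
    obtain ⟨y, hy, rfl⟩ := hx
    have hy' : y ∈ π ++ σ := hperm.mem_iff.2 hy
    rw [List.mem_append] at hy'
    rcases hy' with hy' | hy'
    · exact hπ'.2 _ (List.mem_map_of_mem hy')
    · exact hσ'.2 _ (List.mem_map_of_mem hy')
  · simp only [List.length_map]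
    exact hlen
  · exact ⟨π'.map e, h1.map e, h2.map e⟩
  · exact ⟨σ'.map e, h3.map e, h4.map e⟩

theorem cycle_map_map (e : Perm ℕ) (t : Cycle ℕ) : (t.map e).map e.symm = t := by
  refine Quotient.inductionOn' t fun l => ?_
  show Cycle.map e.symm (Cycle.map e (l : Cycle ℕ)) = (l : Cycle ℕ)
  rw [Cycle.map_coe, Cycle.map_coe, List.map_map]
  simp

theorem cycle_map_injective (e : Perm ℕ) : Function.Injective (Cycle.map (e : ℕ → ℕ)) := by
  intro s t h
  rw [← cycle_map_map e s, h, cycle_map_map]

theorem image_shuffles {π σ : List ℕ} (hπ : IsWord π) (hσ : IsWord σ)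
    (hd : List.Disjoint π σ) (e : Perm ℕ) (hπ' : IsWord (π.map e)) (hσ' : IsWord (σ.map e)) :
    Cycle.map (e : ℕ → ℕ) '' Shuffles π σ = Shuffles (π.map e) (σ.map e) := by
  ext t
  constructor
  · rintro ⟨s, hs, rfl⟩
    exact map_shuffles hπ hσ hd e hπ' hσ' hs
  · intro ht
    have hd' : List.Disjoint (π.map e) (σ.map e) := by
      intro x hx hx'
      rw [List.mem_map] at hx hx'
      obtain ⟨y, hy, rfl⟩ := hx
      obtain ⟨z, hz, hzy⟩ := hx'
      rw [e.injective hzy] at hz
      exact hd hy hz
    have e1 : (π.map e).map e.symm = π := by rw [List.map_map]; simp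
    have e2 : (σ.map e).map e.symm = σ := by rw [List.map_map]; simp
    have h := map_shuffles hπ' hσ' hd' e.symm (by rwa [e1]) (by rwa [e2]) ht
    rw [e1, e2] at h
    refine ⟨_, h, ?_⟩
    have := cycle_map_map e.symm t
    rwa [Equiv.symm_symm] at this

theorem shuffles_comm (π σ : List ℕ) : Shuffles π σ = Shuffles σ π := by
  ext t
  constructor
  · rintro ⟨τ, h1, h2, h3, h4, h5⟩
    exact ⟨τ, h1, h2, by rw [h3, add_comm], h5, h4⟩
  · rintro ⟨τ, h1, h2, h3, h4, h5⟩
    exact ⟨τ, h1, h2, by rw [h3, add_comm], h5, h4⟩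

theorem shuffles_rotate {π π' : List ℕ} (σ : List ℕ) (h : π ~r π') :
    Shuffles π σ ⊆ Shuffles π' σ := by
  rintro t ⟨τ, h1, h2, h3, ⟨ρ, h4, h5⟩, h6⟩
  exact ⟨τ, h1, h2, by rw [h3, h.perm.length_eq], ⟨ρ, h4.trans h, h5⟩, h6⟩

/-- Relabelling along a cycle of even length changes the sign. -/
theorem flip {τ p : List ℕ} (hτ : τ.Nodup) (hodd : Odd τ.length) (hp : p.Nodup)
    (hsub : p ⊆ τ) (heven : Even p.length) (hne : p ≠ []) :
    cst ((τ : Cycle ℕ).map (List.formPerm p)) = 1 ↔ cst τ = 0 := by
  rw [Cycle.map_coe]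
  have h1 := cst_coe (hτ.map (List.formPerm p).injective) (by rwa [List.length_map])
  have h2 := cst_coe hτ hodd
  have h3 := V_formPerm hτ hp hsub
  have h4 : (-1 : ℤ) ^ (p.length - 1) = -1 := by
    obtain ⟨k, hk⟩ := heven
    have hk0 : 1 ≤ k := by
      rcases Nat.eq_zero_or_pos k with h | h
      · exfalso
        apply hne
        rw [← List.length_eq_zero_iff, hk, h]
      · exact h
    rw [show p.length - 1 = 2 * (k - 1) + 1 by omega, pow_succ, pow_mul]
    norm_num
  rw [h4, neg_one_mul] at h3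
  rw [h1, h3]
  have h5 := V_ne_zero hτ
  constructor
  · intro h
    rcases cst_le (τ : Cycle ℕ) with h6 | h6
    · exact h6
    · have := h2.1 h6
      omega
  · intro h
    rcases lt_trichotomy (V τ) 0 with h6 | h6 | h6
    · omega
    · exact absurd h6 h5
    · have := h2.2 h6
      omega

/-- On the shuffles of two nonempty words of odd total length, the first of even length, both
signs occur equally often. -/
theorem half {π σ : List ℕ} (hπ : IsWord π) (hσ : IsWord σ) (hd : List.Disjoint π σ)
    (heven : Even π.length) (hne : π ≠ []) (hodd : Odd (π.length + σ.length)) :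
    {t ∈ Shuffles π σ | cst t = 1}.ncard = {t ∈ Shuffles π σ | cst t = 0}.ncard := by
  have e1 : π.map (List.formPerm π) = π.rotate 1 := map_formPerm hπ.1
  have e2 : σ.map (List.formPerm π) = σ := by
    conv_rhs => rw [← List.map_id σ]
    apply List.map_congr_left
    intro x hx
    rw [List.formPerm_apply_of_notMem (fun h => hd h hx)]
    rfl
  have hr : π.rotate 1 ~r π := (List.IsRotated.symm ⟨1, rfl⟩)
  have hπ' : IsWord (π.map (List.formPerm π)) := by
    rw [e1]
    exact ⟨List.nodup_rotate.2 hπ.1, fun x hx => hπ.2 x (List.mem_rotate.1 hx)⟩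
  have himg := image_shuffles hπ hσ hd (List.formPerm π) hπ' (by rwa [e2])
  rw [e1, e2] at himg
  have himg' : Cycle.map (List.formPerm π : ℕ → ℕ) '' Shuffles π σ = Shuffles π σ := by
    rw [himg]
    exact Set.Subset.antisymm (shuffles_rotate σ hr) (shuffles_rotate σ hr.symm)
  have hflip : ∀ t ∈ Shuffles π σ,
      (cst (t.map (List.formPerm π)) = 1 ↔ cst t = 0) := by
    rintro t ⟨τ, rfl, hτ, hlen, ⟨π', h1, h2⟩, -⟩
    exact flip hτ.1 (by rwa [hlen]) hπ.1 (fun x hx => h2.subset (h1.mem_iff.2 hx)) heven hne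
  have key : {t ∈ Shuffles π σ | cst t = 1} =
      Cycle.map (List.formPerm π : ℕ → ℕ) '' {t ∈ Shuffles π σ | cst t = 0} := by
    ext t
    constructor
    · rintro ⟨h1, h2⟩
      rw [← himg'] at h1
      obtain ⟨s, hs, rfl⟩ := h1
      exact ⟨s, ⟨hs, (hflip s hs).1 h2⟩, rfl⟩
    · rintro ⟨s, ⟨hs, h2⟩, rfl⟩
      refine ⟨?_, (hflip s hs).2 h2⟩
      rw [← himg']
      exact ⟨s, hs, rfl⟩
  rw [key, Set.ncard_image_of_injective _ (cycle_map_injective _)]

/-- The number of shuffles depends only on the lengths. -/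
theorem ncard_shuffles {π σ π' σ' : List ℕ} (hπ : IsWord π) (hσ : IsWord σ)
    (hπ' : IsWord π') (hσ' : IsWord σ') (hd : List.Disjoint π σ) (hd' : List.Disjoint π' σ')
    (h1 : π.length = π'.length) (h2 : σ.length = σ'.length) :
    (Shuffles π σ).ncard = (Shuffles π' σ').ncard := by
  obtain ⟨e, he⟩ := exists_relabel (π ++ σ) (π' ++ σ')
    (List.nodup_append'.2 ⟨hπ.1, hσ.1, hd⟩) (List.nodup_append'.2 ⟨hπ'.1, hσ'.1, hd'⟩)
    (by rw [List.length_append, List.length_append, h1, h2])
  rw [List.map_append] at he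
  obtain ⟨e1, e2⟩ := List.append_inj he (by rw [List.length_map, h1])
  have := image_shuffles hπ hσ hd e (by rwa [e1]) (by rwa [e2])
  rw [e1, e2] at this
  rw [← this, Set.ncard_image_of_injective _ (cycle_map_injective e)]

theorem length_of_mem {π σ : List ℕ} {t : Cycle ℕ} (h : t ∈ Shuffles π σ) :
    t.length = π.length + σ.length := by
  obtain ⟨τ, rfl, -, h1, -⟩ := h
  rwa [Cycle.length_coe]

/-- The fibre over `1` has half of the elements. -/
theorem two_mul_fibre {π σ : List ℕ} (hπ : IsWord π) (hσ : IsWord σ) (hd : List.Disjoint π σ)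
    (hπn : π ≠ []) (hσn : σ ≠ []) (hodd : Odd (π.length + σ.length)) :
    2 * {t ∈ Shuffles π σ | cst t = 1}.ncard = (Shuffles π σ).ncard ∧
    2 * {t ∈ Shuffles π σ | cst t = 0}.ncard = (Shuffles π σ).ncard := by
  have hh : {t ∈ Shuffles π σ | cst t = 1}.ncard = {t ∈ Shuffles π σ | cst t = 0}.ncard := by
    rcases Nat.even_or_odd π.length with h | h
    · exact half hπ hσ hd h hπn hodd
    · have h' : Even σ.length := by
        rcases Nat.even_or_odd σ.length with h2 | h2
        · exact h2
        · exact absurd (h.add_odd h2) (Nat.not_even_iff_odd.2 hodd)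
      rw [shuffles_comm]
      exact half hσ hπ hd.symm h' hσn (by rwa [add_comm])
  have hfin := finite_shuffles hπ hσ hd
  have hsum : (Shuffles π σ).ncard = {t ∈ Shuffles π σ | cst t = 1}.ncard +
      {t ∈ Shuffles π σ | cst t = 0}.ncard := by
    have f1 : {t ∈ Shuffles π σ | cst t = 1}.Finite := hfin.subset fun t h => h.1
    have f0 : {t ∈ Shuffles π σ | cst t = 0}.Finite := hfin.subset fun t h => h.1
    rw [← Set.ncard_union_eq (hs := f1) (ht := f0)]
    · congr 1
      ext t
      constructor
      · intro ht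
        rcases cst_le t with h | h
        · exact Or.inr ⟨ht, h⟩
        · exact Or.inl ⟨ht, h⟩
      · rintro (h | h)
        · exact h.1
        · exact h.1
    · rw [Set.disjoint_left]
      rintro t ⟨-, h1⟩ ⟨-, h2⟩
      omega
  omega

theorem shuffles_nil {σ : List ℕ} (hσ : IsWord σ) : Shuffles [] σ = {(σ : Cycle ℕ)} := by
  ext t
  constructor
  · rintro ⟨τ, rfl, -, hlen, -, ⟨σ', h3, h4⟩⟩
    have h5 : σ' = τ := h4.eq_of_length (by
      rw [h3.perm.length_eq, hlen]; simp)
    subst h5
    exact Cycle.coe_eq_coe.2 h3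
  · intro h
    rw [Set.mem_singleton_iff] at h
    subst h
    exact ⟨σ, rfl, hσ, by simp, ⟨[], List.IsRotated.refl _, List.nil_sublist _⟩,
      ⟨σ, List.IsRotated.refl _, List.Sublist.refl _⟩⟩

theorem compat_nil {σ σ' : List ℕ} (hσ : IsWord σ) (hσ' : IsWord σ')
    (h : cst σ = cst σ') (v : ℕ) :
    {t ∈ Shuffles [] σ | cst t = v}.ncard = {t ∈ Shuffles [] σ' | cst t = v}.ncard := by
  rw [shuffles_nil hσ, shuffles_nil hσ']
  by_cases hv : cst σ = v
  · have e1 : {t ∈ ({(σ : Cycle ℕ)} : Set (Cycle ℕ)) | cst t = v} = {(σ : Cycle ℕ)} := by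
      ext t
      constructor
      · exact fun h => h.1
      · intro h
        refine ⟨h, ?_⟩
        rw [Set.mem_singleton_iff.1 h]
        exact hv
    have e2 : {t ∈ ({(σ' : Cycle ℕ)} : Set (Cycle ℕ)) | cst t = v} = {(σ' : Cycle ℕ)} := by
      ext t
      constructor
      · exact fun h => h.1
      · intro h'
        refine ⟨h', ?_⟩
        rw [Set.mem_singleton_iff.1 h', ← h]
        exact hv
    rw [e1, e2, Set.ncard_singleton, Set.ncard_singleton]
  · have e1 : {t ∈ ({(σ : Cycle ℕ)} : Set (Cycle ℕ)) | cst t = v} = ∅ := by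
      ext t
      constructor
      · rintro ⟨h1, h2⟩
        rw [Set.mem_singleton_iff] at h1
        subst h1
        exact absurd h2 hv
      · exact fun h => absurd h (Set.notMem_empty _)
    have e2 : {t ∈ ({(σ' : Cycle ℕ)} : Set (Cycle ℕ)) | cst t = v} = ∅ := by
      ext t
      constructor
      · rintro ⟨h1, h2⟩
        rw [Set.mem_singleton_iff] at h1
        subst h1
        exact absurd (h.trans h2) hv
      · exact fun h => absurd h (Set.notMem_empty _)
    rw [e1, e2]

theorem compatible : ShuffleCompatible cst := by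
  intro π σ π' σ' hπ hσ hπ' hσ' hd hd' hc1 hc2 h1 h2 v
  have hcard := ncard_shuffles hπ hσ hπ' hσ' hd hd' h1 h2
  by_cases hodd : Odd (π.length + σ.length)
  · by_cases hπn : π = []
    · subst hπn
      have : π' = [] := by
        rw [← List.length_eq_zero_iff, ← h1]
        rfl
      subst this
      exact compat_nil hσ hσ' hc2 v
    by_cases hσn : σ = []
    · subst hσn
      have : σ' = [] := by
        rw [← List.length_eq_zero_iff, ← h2]
        rfl
      subst this
      rw [shuffles_comm π, shuffles_comm π']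
      exact compat_nil hπ hπ' hc1 v
    have hπn' : π' ≠ [] := by
      rintro rfl
      exact hπn (List.length_eq_zero_iff.1 h1)
    have hσn' : σ' ≠ [] := by
      rintro rfl
      exact hσn (List.length_eq_zero_iff.1 h2)
    have a1 := two_mul_fibre hπ hσ hd hπn hσn hodd
    have a2 := two_mul_fibre hπ' hσ' hd' hπn' hσn' (by rwa [← h1, ← h2])
    by_cases hv1 : v = 1
    · subst hv1
      omega
    by_cases hv0 : v = 0
    · subst hv0
      omega
    have e1 : ∀ S : Set (Cycle ℕ), {t ∈ S | cst t = v} = ∅ := by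
      intro S
      ext t
      constructor
      · rintro ⟨-, h⟩
        rcases cst_le t with h' | h'
        · exact absurd (h.symm.trans h') hv0
        · exact absurd (h.symm.trans h') hv1
      · exact fun h => absurd h (Set.notMem_empty _)
    rw [e1, e1]
  · have hz : ∀ t ∈ Shuffles π σ, cst t = 0 := fun t ht =>
      cst_even (by rwa [length_of_mem ht])
    have hz' : ∀ t ∈ Shuffles π' σ', cst t = 0 := fun t ht =>
      cst_even (by rwa [length_of_mem ht, ← h1, ← h2])
    by_cases hv0 : v = 0
    · subst hv0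
      have e1 : {t ∈ Shuffles π σ | cst t = 0} = Shuffles π σ := by
        ext t
        exact ⟨fun h => h.1, fun h => ⟨h, hz t h⟩⟩
      have e2 : {t ∈ Shuffles π' σ' | cst t = 0} = Shuffles π' σ' := by
        ext t
        exact ⟨fun h => h.1, fun h => ⟨h, hz' t h⟩⟩
      rw [e1, e2, hcard]
    · have e1 : {t ∈ Shuffles π σ | cst t = v} = ∅ := by
        ext t
        constructor
        · rintro ⟨h3, h4⟩
          exact absurd (h4.symm.trans (hz t h3)) hv0
        · exact fun h => absurd h (Set.notMem_empty _)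
      have e2 : {t ∈ Shuffles π' σ' | cst t = v} = ∅ := by
        ext t
        constructor
        · rintro ⟨h3, h4⟩
          exact absurd (h4.symm.trans (hz' t h3)) hv0
        · exact fun h => absurd h (Set.notMem_empty _)
      rw [e1, e2]

theorem not_descent : ¬ IsCyclicDescentStatistic cst := by
  intro h
  have w1 : IsWord [1, 2, 3, 5, 4] := ⟨by decide, by decide⟩
  have w2 : IsWord [1, 2, 4, 5, 3] := ⟨by decide, by decide⟩
  have h1 := h _ _ w1 w2 rfl (by decide)
  have v1 : V [1, 2, 3, 5, 4] < 0 := by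
    unfold V VL
    decide +kernel
  have v2 : 0 < V [1, 2, 4, 5, 3] := by
    unfold V VL
    decide +kernel
  have c2 := (cst_coe w2.1 (by decide)).2 v2
  rw [← h1, cst_coe w1.1 (by decide)] at c2
  omega

/-- There is a cyclic permutation statistic that is cyclic shuffle-compatible but is not a cyclic
descent statistic. -/
theorem result :
    ∃ cst : Cycle ℕ → ℕ, IsStatistic cst ∧ ShuffleCompatible cst ∧
      ¬ IsCyclicDescentStatistic cst :=
  ⟨cst, isStatistic, compatible, not_descent⟩

end Pool.Agent.Results.MP_f664e7_co.SignStatistic
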